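import Mathlib

set_option autoImplicit false

/-!
Clique covers of relational structures and the clique-guarded negation fragment of
`L_{omega_1 omega}`.
-/

namespace Pool.Agent.H480R2.VC

open Set

/-- An interpretation of the relation symbols of `L` on `M`. -/
def Interp (L : FirstOrder.Language.{0, 0}) (M : Type) : Type :=
  ∀ n, L.Relations n → (Fin n → M) → Prop

variable {L : FirstOrder.Language.{0, 0}} {M N : Type}

/-- `x` and `y` occur in a common tuple of some relation. -/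
def Adj (I : Interp L M) (x y : M) : Prop :=
  ∃ n, ∃ R : L.Relations n, ∃ t : Fin n → M, I n R t ∧ x ∈ range t ∧ y ∈ range t

/-- Any two distinct elements of `s` occur in a common tuple of some relation. -/
def Clique (I : Interp L M) (s : Set M) : Prop :=
  ∀ x ∈ s, ∀ y ∈ s, x ≠ y → Adj I x y

/-- Clique covers: homomorphisms `π : N → M` such that through every clique of `N` there is a
homomorphic section of `π`. -/
structure Cover (I : Interp L N) (J : Interp L M) (π : N → M) : Prop where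
  hom : ∀ n (R : L.Relations n) (t : Fin n → N), I n R t → J n R (π ∘ t)
  sec : ∀ s : Set N, Clique I s → ∃ σ : M → N, (∀ m, π (σ m) = m) ∧
    (∀ n (R : L.Relations n) (t : Fin n → M), J n R t → I n R (σ ∘ t)) ∧ ∀ x ∈ s, σ (π x) = x

/-- Formulas of `L_{omega_1 omega}` (variables are the natural numbers) in which negation only
occurs together with a guard: `neg s φ` says that the values of the variables in `s` form a clique
and `φ` fails. -/
inductive Fm (L : FirstOrder.Language.{0, 0}) : Type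
  | eq (i j : ℕ) : Fm L
  | rel {n : ℕ} (R : L.Relations n) (v : Fin n → ℕ) : Fm L
  | all (f : ℕ → Fm L) : Fm L
  | any (f : ℕ → Fm L) : Fm L
  | ex (i : ℕ) (φ : Fm L) : Fm L
  | neg (s : Finset ℕ) (φ : Fm L) : Fm L

namespace Fm

/-- Free variables. -/
def fv : Fm L → Set ℕ
  | eq i j => {i, j}
  | rel _ v => range v
  | all f => ⋃ k, fv (f k)
  | any f => ⋃ k, fv (f k)
  | ex i φ => fv φ \ {i}
  | neg s φ => ↑s ∪ fv φ

/-- The guards of all negations contain the free variables of the negated formulas. -/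
def Guarded : Fm L → Prop
  | eq _ _ => True
  | rel _ _ => True
  | all f => ∀ k, Guarded (f k)
  | any f => ∀ k, Guarded (f k)
  | ex _ φ => Guarded φ
  | neg s φ => Guarded φ ∧ fv φ ⊆ ↑s

/-- Satisfaction of a formula under an assignment. -/
def Sat (I : Interp L M) : Fm L → (ℕ → M) → Prop
  | eq i j, a => a i = a j
  | rel R v, a => I _ R (fun k => a (v k))
  | all f, a => ∀ k, Sat I (f k) a
  | any f, a => ∃ k, Sat I (f k) a
  | ex i φ, a => ∃ x : M, Sat I φ (Function.update a i x)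
  | neg s φ, a => Clique I (a '' ↑s) ∧ ¬ Sat I φ a

theorem sat_congr (I : Interp L M) (φ : Fm L) : ∀ a a' : ℕ → M, (∀ i ∈ fv φ, a i = a' i) →
    Sat I φ a → Sat I φ a' := by
  induction φ with
  | eq i j =>
    intro a a' h h1
    have h2 := h i (by simp [fv]); have h3 := h j (by simp [fv])
    simp only [Sat] at h1 ⊢
    rw [← h2, ← h3]; exact h1
  | rel R v =>
    intro a a' h h1
    simp only [Sat] at h1 ⊢
    have : (fun k => a' (v k)) = fun k => a (v k) := by
      funext k; exact (h _ ⟨k, rfl⟩).symm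
    rw [this]; exact h1
  | all f ih =>
    intro a a' h h1 k
    exact ih k a a' (fun i hi => h i (mem_iUnion.2 ⟨k, hi⟩)) (h1 k)
  | any f ih =>
    rintro a a' h ⟨k, h1⟩
    exact ⟨k, ih k a a' (fun i hi => h i (mem_iUnion.2 ⟨k, hi⟩)) h1⟩
  | ex i φ ih =>
    rintro a a' h ⟨x, h1⟩
    refine ⟨x, ih _ _ (fun j hj => ?_) h1⟩
    by_cases hji : j = i
    · subst hji; simp
    · rw [Function.update_of_ne hji, Function.update_of_ne hji]
      exact h j ⟨hj, hji⟩
  | neg s φ ih =>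
    rintro a a' h ⟨h1, h2⟩
    refine ⟨?_, fun h3 => h2 (ih a' a (fun i hi => (h i (Or.inr hi)).symm) h3)⟩
    have : a' '' ↑s = a '' ↑s := by
      apply image_congr
      intro i hi
      exact (h i (Or.inl hi)).symm
    rw [this]; exact h1

/-- Clique covers preserve and reflect guarded formulas. -/
theorem cover_sat {I : Interp L N} {J : Interp L M} {π : N → M} (h : Cover I J π) (φ : Fm L)
    (hφ : Guarded φ) :
    (∀ a : ℕ → N, Sat I φ a → Sat J φ (π ∘ a)) ∧
    (∀ σ : M → N, (∀ m, π (σ m) = m) →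
      (∀ n (R : L.Relations n) (t : Fin n → M), J n R t → I n R (σ ∘ t)) →
      ∀ b : ℕ → M, Sat J φ b → Sat I φ (σ ∘ b)) := by
  induction φ with
  | eq i j =>
    refine ⟨fun a h1 => ?_, fun σ _ _ b h1 => ?_⟩
    · exact congrArg π h1
    · exact congrArg σ h1
  | rel R v =>
    refine ⟨fun a h1 => ?_, fun σ _ h3 b h1 => ?_⟩
    · exact h.hom _ R _ h1
    · exact h3 _ R _ h1
  | all f ih =>
    refine ⟨fun a h1 k => (ih k (hφ k)).1 a (h1 k), fun σ h2 h3 b h1 k =>
      (ih k (hφ k)).2 σ h2 h3 b (h1 k)⟩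
  | any f ih =>
    refine ⟨?_, ?_⟩
    · rintro a ⟨k, h1⟩
      exact ⟨k, (ih k (hφ k)).1 a h1⟩
    · rintro σ h2 h3 b ⟨k, h1⟩
      exact ⟨k, (ih k (hφ k)).2 σ h2 h3 b h1⟩
  | ex i φ ih =>
    refine ⟨?_, ?_⟩
    · rintro a ⟨x, h1⟩
      refine ⟨π x, ?_⟩
      have := (ih hφ).1 _ h1
      rwa [Function.comp_update] at this
    · rintro σ h2 h3 b ⟨x, h1⟩
      refine ⟨σ x, ?_⟩
      have := (ih hφ).2 σ h2 h3 _ h1
      rwa [Function.comp_update] at this
  | neg s φ ih =>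
    obtain ⟨hg, hs⟩ := hφ
    refine ⟨?_, ?_⟩
    · rintro a ⟨h1, h2⟩
      refine ⟨?_, fun h3 => h2 ?_⟩
      · rintro _ ⟨i, hi, rfl⟩ _ ⟨j, hj, rfl⟩ hne
        obtain ⟨n, R, t, ht, ⟨p, hp⟩, ⟨q, hq⟩⟩ := h1 (a i) ⟨i, hi, rfl⟩ (a j) ⟨j, hj, rfl⟩
          (fun he => hne (congrArg π he))
        exact ⟨n, R, π ∘ t, h.hom _ R _ ht, ⟨p, congrArg π hp⟩, ⟨q, congrArg π hq⟩⟩
      · obtain ⟨σ, hσ1, hσ2, hσ3⟩ := h.sec _ h1
        refine sat_congr I φ (σ ∘ (π ∘ a)) a (fun i hi => ?_) ((ih hg).2 σ hσ1 hσ2 _ h3)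
        exact hσ3 _ ⟨i, hs hi, rfl⟩
    · rintro σ h2 h3 b ⟨h1, h4⟩
      refine ⟨?_, fun h5 => h4 ?_⟩
      · rintro _ ⟨i, hi, rfl⟩ _ ⟨j, hj, rfl⟩ hne
        obtain ⟨n, R, t, ht, ⟨p, hp⟩, ⟨q, hq⟩⟩ := h1 (b i) ⟨i, hi, rfl⟩ (b j) ⟨j, hj, rfl⟩
          (fun he => hne (congrArg σ he))
        exact ⟨n, R, σ ∘ t, h3 _ R _ ht, ⟨p, congrArg σ hp⟩, ⟨q, congrArg σ hq⟩⟩
      · have h6 := (ih hg).1 _ h5
        have : π ∘ (σ ∘ b) = b := by
          funext i; exact h2 (b i)
        rwa [this] at h6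

end Fm

end Pool.Agent.H480R2.VC
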