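import Pool.Agent.H480R2.VC.Wedge
import Pool.Agent.H565R2.FO2.USec

set_option autoImplicit false

/-!
The dichotomy for Borel classes of structures closed under clique covers.
-/

namespace Pool.Agent.H480R2.VC

open Set MeasureTheory

variable {L : FirstOrder.Language.{0, 0}}

/-- Codes of interpretations on the natural numbers. -/
abbrev Code (L : FirstOrder.Language.{0, 0}) : Type :=
  (Σ n, L.Relations n × (Fin n → ℕ)) → Bool

def toI (c : Code L) : Interp L ℕ := fun n R t => c ⟨n, R, t⟩ = true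

open Classical in
noncomputable def ofI (I : Interp L ℕ) : Code L := fun p => decide (I p.1 p.2.1 p.2.2)

theorem toI_ofI (I : Interp L ℕ) : toI (ofI I) = I := by
  funext n R t
  simp [toI, ofI]

/-! ### The branching case -/

noncomputable def eU : U ≃ ℕ := Classical.choice nonempty_equiv_of_countable

def WN (I : Interp L ℕ) (a : ℕ) (y : ℕ → Bool) : Interp L ℕ := fun n R t =>
  WI I a y n R (eU.symm ∘ t)

theorem adj_WN {I : Interp L ℕ} {a : ℕ} {y : ℕ → Bool} (x z : ℕ) :
    Adj (WN I a y) x z ↔ Adj (WI I a y) (eU.symm x) (eU.symm z) :=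
  adj_iso eU.symm (fun _ _ _ => Iff.rfl) x z

theorem cover_WN (I : Interp L ℕ) (a : ℕ) (y : ℕ → Bool) :
    Cover (WN I a y) I (pr ∘ eU.symm) := by
  have h := cover_WI I a y
  constructor
  · intro n R t ht
    exact h.hom n R _ ht
  · intro s hs
    obtain ⟨σ, h1, h2, h3⟩ := h.sec (eU.symm '' s) (by
      rintro _ ⟨x, hx, rfl⟩ _ ⟨z, hz, rfl⟩ hne
      exact (adj_WN x z).1 (hs x hx z hz (fun he => hne (congrArg _ he))))
    refine ⟨eU ∘ σ, fun m => ?_, fun n R t ht => ?_, fun x hx => ?_⟩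
    · simp only [Function.comp, Equiv.symm_apply_apply]; exact h1 m
    · change WI I a y n R (eU.symm ∘ (eU ∘ σ) ∘ t)
      have : eU.symm ∘ (eU ∘ σ) ∘ t = σ ∘ t := by
        funext i; simp
      rw [this]; exact h2 n R t ht
    · have := h3 _ ⟨x, hx, rfl⟩
      simp only [Function.comp]
      rw [this]; simp

theorem WN_inj {I : Interp L ℕ} {a b : ℕ} {y y' : ℕ → Bool} (hab : Adj I a b) (hne : b ≠ a)
    (h : IsoI (WN I a y) (WN I a y')) : y = y' := by
  obtain ⟨g, hg⟩ := h
  refine WI_inj hab hne ⟨(eU.trans g).trans eU.symm, fun n R t => ?_⟩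
  have h1 := hg n R (eU ∘ t)
  have e1 : eU.symm ∘ (eU ∘ t) = t := by funext i; simp
  have e2 : eU.symm ∘ (g ∘ (eU ∘ t)) = ⇑((eU.trans g).trans eU.symm) ∘ t := by
    funext i; simp
  simp only [WN] at h1
  rw [e1, e2] at h1
  exact h1

theorem perfect_of_adj {K : Set (Code L)}
    (hcl : ∀ c ∈ K, ∀ c' : Code L, ∀ π : ℕ → ℕ, Cover (toI c') (toI c) π → c' ∈ K)
    {c : Code L} (hc : c ∈ K) {a b : ℕ} (hab : Adj (toI c) a b) (hne : b ≠ a) :
    ∃ f : (ℕ → Bool) → Code L, Continuous f ∧ (∀ x, f x ∈ K) ∧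
      ∀ x x', IsoI (toI (f x)) (toI (f x')) → x = x' := by
  classical
  refine ⟨fun y => ofI (WN (toI c) a y), ?_, fun y => ?_, fun y y' h => ?_⟩
  · refine continuous_pi fun p => ?_
    obtain ⟨n, R, t⟩ := p
    obtain ⟨k0, hk⟩ := WI_dep (toI c) a R (eU.symm ∘ t)
    have : (fun y : ℕ → Bool => ofI (WN (toI c) a y) ⟨n, R, t⟩) =
        (fun b : Bool => ofI (WN (toI c) a (fun _ => b)) ⟨n, R, t⟩) ∘ (fun y => y k0) := by
      funext y
      simp only [Function.comp, ofI]
      apply decide_eq_decide.2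
      exact ⟨hk y _ rfl, hk _ y rfl⟩
    rw [this]
    exact (continuous_of_discreteTopology).comp (continuous_apply k0)
  · refine hcl c hc _ (pr ∘ eU.symm) ?_
    rw [toI_ofI]
    exact cover_WN _ _ _
  · simp only [toI_ofI] at h
    exact WN_inj hab hne h

/-! ### The unary case -/

theorem equiv_of_finsets {A B : Set ℕ}
    (h : ∀ n, (∃ s : Finset ℕ, s.card = n ∧ ↑s ⊆ A) ↔ (∃ s : Finset ℕ, s.card = n ∧ ↑s ⊆ B)) :
    Nonempty (A ≃ B) := by
  have key : ∀ {A B : Set ℕ}, (∀ n, (∃ s : Finset ℕ, s.card = n ∧ ↑s ⊆ A) →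
      (∃ s : Finset ℕ, s.card = n ∧ ↑s ⊆ B)) → A.Infinite → B.Infinite := by
    intro A B h hA hB
    obtain ⟨s, hs1, hs2⟩ := hA.exists_subset_card_eq (hB.toFinset.card + 1)
    obtain ⟨t, ht1, ht2⟩ := h _ ⟨s, hs2, hs1⟩
    have : t ⊆ hB.toFinset := fun x hx => hB.mem_toFinset.2 (ht2 hx)
    have := Finset.card_le_card this
    omega
  by_cases hA : A.Infinite
  · have hB : B.Infinite := key (fun n => (h n).1) hA
    have := hA.to_subtype
    have := hB.to_subtype
    exact nonempty_equiv_of_countable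
  · have hB : ¬ B.Infinite := fun hB => hA (key (fun n => (h n).2) hB)
    rw [not_infinite] at hA hB
    have h1 : hA.toFinset.card ≤ hB.toFinset.card := by
      obtain ⟨t, ht1, ht2⟩ := (h _).1 ⟨hA.toFinset, rfl, by simp⟩
      rw [← ht1]
      exact Finset.card_le_card fun x hx => hB.mem_toFinset.2 (ht2 hx)
    have h2 : hB.toFinset.card ≤ hA.toFinset.card := by
      obtain ⟨t, ht1, ht2⟩ := (h _).2 ⟨hB.toFinset, rfl, by simp⟩
      rw [← ht1]
      exact Finset.card_le_card fun x hx => hA.mem_toFinset.2 (ht2 hx)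
    have e := Finset.equivOfCardEq (le_antisymm h1 h2)
    exact ⟨(Equiv.setCongr (hA.coe_toFinset).symm).trans
      (e.trans (Equiv.setCongr hB.coe_toFinset))⟩

/-- The type of an element. -/
def ty (i : ℕ) (c : Code L) : (Σ n, L.Relations n) → Bool := fun q => c ⟨q.1, q.2, fun _ => i⟩

theorem ty_iso {c c' : Code L} (g : ℕ ≃ ℕ)
    (hg : ∀ n (R : L.Relations n) (t : Fin n → ℕ), toI c n R t ↔ toI c' n R (g ∘ t)) (i : ℕ) :
    ty i c = ty (g i) c' := by
  funext q
  rw [Bool.eq_iff_iff]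
  exact hg q.1 q.2 (fun _ => i)

theorem iso_of_ty {c c' : Code L}
    (hc : ∀ n (R : L.Relations n) (t : Fin n → ℕ), toI c n R t → ∀ i j, t i = t j)
    (hc' : ∀ n (R : L.Relations n) (t : Fin n → ℕ), toI c' n R t → ∀ i j, t i = t j)
    (g : ℕ ≃ ℕ) (hg : ∀ i, ty i c = ty (g i) c') : IsoI (toI c) (toI c') := by
  refine ⟨g, fun n R t => ?_⟩
  by_cases ht : ∀ i j, t i = t j
  · have : ∃ x, t = fun _ => x := by
      rcases Nat.eq_zero_or_pos n with h0 | h0
      · subst h0
        exact ⟨0, funext fun i => i.elim0⟩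
      · exact ⟨t ⟨0, h0⟩, funext fun i => ht _ _⟩
    obtain ⟨x, rfl⟩ := this
    have := congrFun (hg x) ⟨n, R⟩
    rw [Bool.eq_iff_iff] at this
    exact this
  · constructor
    · intro h; exact absurd (hc n R t h) ht
    · intro h
      exfalso
      apply ht
      intro i j
      exact g.injective (hc' n R _ h i j)

theorem main [∀ n, Countable (L.Relations n)] (K : Set (Code L)) (hK : MeasurableSet K)
    (hcl : ∀ c ∈ K, ∀ c' : Code L, ∀ π : ℕ → ℕ, Cover (toI c') (toI c) π → c' ∈ K) :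
    (∃ g : ℕ → Code L, ∀ c ∈ K, ∃ n, IsoI (toI c) (toI (g n))) ∨
    (∃ f : (ℕ → Bool) → Code L, Continuous f ∧ (∀ x, f x ∈ K) ∧
      ∀ x x', IsoI (toI (f x)) (toI (f x')) → x = x') := by
  classical
  by_cases hadj : ∃ c ∈ K, ∃ a b, Adj (toI c) a b ∧ b ≠ a
  · obtain ⟨c, hc, a, b, hab, hne⟩ := hadj
    exact Or.inr (perfect_of_adj hcl hc hab hne)
  push Not at hadj
  have hun : ∀ c ∈ K, ∀ n (R : L.Relations n) (t : Fin n → ℕ), toI c n R t → ∀ i j, t i = t j :=
    fun c hc n R t ht i j => hadj c hc (t j) (t i) ⟨n, R, t, ht, ⟨j, rfl⟩, ⟨i, rfl⟩⟩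
  have hsb : StandardBorelSpace K := hK.standardBorel
  have hperf : ∀ h : (ℕ → Bool) → K, Continuous (fun x => (h x : Code L)) →
      (∀ x x', x ≠ x' → ¬ IsoI (toI (h x : Code L)) (toI (h x' : Code L))) →
      (∃ f : (ℕ → Bool) → Code L, Continuous f ∧ (∀ x, f x ∈ K) ∧
      ∀ x x', IsoI (toI (f x)) (toI (f x')) → x = x') := by
    intro h h1 h2
    refine ⟨fun x => (h x : Code L), h1, fun x => (h x).2, fun x x' hi => ?_⟩
    by_contra hne
    exact h2 x x' hne hi
  -- countably many types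
  by_cases h1 : (⋃ i, range (fun c : K => ty i (c : Code L))).Countable
  swap
  · right
    obtain ⟨h, h2, h3⟩ := Pool.Agent.H565R2.FO2.perfect_of_uncountable
      (Y := K) (X := Code L) (Z := (Σ n, L.Relations n) → Bool) (ι := ℕ)
      (fun c => (c : Code L)) measurable_subtype_coe (fun i c => ty i (c : Code L))
      (fun i => measurable_pi_lambda _ fun q => (measurable_pi_apply _).comp
        measurable_subtype_coe)
      (fun c c' => IsoI (toI (c : Code L)) (toI (c' : Code L)))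
      (fun c c' ⟨g, hg⟩ i => ⟨g i, ty_iso g hg i⟩) h1
    exact hperf h h2 h3
  -- multiplicities
  set Θ : Set ((Σ n, L.Relations n) → Bool) := ⋃ i, range (fun c : K => ty i (c : Code L)) with hΘ
  have hΘc : Countable Θ := h1.to_subtype
  let J : K → (Θ × ℕ → Bool) := fun c q =>
    decide (∃ s : Finset ℕ, s.card = q.2 ∧ ∀ i ∈ s, ty i (c : Code L) = q.1)
  have hJm : Measurable J := by
    refine measurable_pi_lambda _ fun q => ?_
    have hms : MeasurableSet {c : K | ∃ s : Finset ℕ, s.card = q.2 ∧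
        ∀ i ∈ s, ty i (c : Code L) = q.1} := by
      have : {c : K | ∃ s : Finset ℕ, s.card = q.2 ∧ ∀ i ∈ s, ty i (c : Code L) = q.1} =
          ⋃ s : Finset ℕ, {c : K | s.card = q.2 ∧ ∀ i ∈ s, ty i (c : Code L) = q.1} := by
        ext c; simp
      rw [this]
      refine MeasurableSet.iUnion fun s => ?_
      by_cases hs : s.card = q.2
      · have : {c : K | s.card = q.2 ∧ ∀ i ∈ s, ty i (c : Code L) = q.1} =
            ⋂ i ∈ s, {c : K | ty i (c : Code L) = q.1} := by
          ext c; simp [hs]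
        rw [this]
        refine Finset.measurableSet_biInter _ fun i _ => ?_
        have hm : Measurable (fun c : K => ty i (c : Code L)) :=
          measurable_pi_lambda _ fun q => (measurable_pi_apply _).comp measurable_subtype_coe
        exact hm (measurableSet_singleton _)
      · have : {c : K | s.card = q.2 ∧ ∀ i ∈ s, ty i (c : Code L) = q.1} = ∅ := by
          ext c; simp [hs]
        rw [this]
        exact MeasurableSet.empty
    refine measurable_to_bool ?_
    have : (fun c : K => J c q) ⁻¹' {true} = {c : K | ∃ s : Finset ℕ, s.card = q.2 ∧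
        ∀ i ∈ s, ty i (c : Code L) = q.1} := by
      ext c; simp [J]
    rw [this]
    exact hms
  by_cases h2 : (range J).Countable
  swap
  · right
    obtain ⟨h, h3, h4⟩ := Pool.Agent.H565R2.FO2.perfect_of_uncountable
      (Y := K) (X := Code L) (Z := Θ × ℕ → Bool) (ι := Unit)
      (fun c => (c : Code L)) measurable_subtype_coe (fun _ c => J c)
      (fun _ => hJm)
      (fun c c' => IsoI (toI (c : Code L)) (toI (c' : Code L)))
      (fun c c' ⟨g, hg⟩ _ => ⟨(), by
        funext q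
        simp only [J]
        apply decide_eq_decide.2
        have key : ∀ {c c' : K} (g : ℕ ≃ ℕ), (∀ i, ty i (c : Code L) = ty (g i) (c' : Code L)) →
            (∃ s : Finset ℕ, s.card = q.2 ∧ ∀ i ∈ s, ty i (c : Code L) = q.1) →
            ∃ s : Finset ℕ, s.card = q.2 ∧ ∀ i ∈ s, ty i (c' : Code L) = q.1 := by
          rintro c c' g hg ⟨s, hs1, hs2⟩
          refine ⟨s.map g.toEmbedding, by simp [hs1], fun i hi => ?_⟩
          rw [Finset.mem_map] at hi
          obtain ⟨j, hj, rfl⟩ := hi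
          rw [← hs2 j hj]; exact (hg j).symm
        refine ⟨key g (ty_iso g hg), key g.symm (fun i => ?_)⟩
        rw [ty_iso g hg (g.symm i)]; simp⟩) (by simpa using h2)
    exact hperf h h3 h4
  left
  by_cases hne : Nonempty K
  swap
  · exact ⟨fun _ _ => false, fun c hc => absurd ⟨⟨c, hc⟩⟩ hne⟩
  obtain ⟨e, he⟩ := h2.exists_eq_range (range_nonempty J)
  have hex : ∀ n, ∃ c : K, J c = e n := fun n => by
    have : e n ∈ range J := by rw [he]; exact ⟨n, rfl⟩
    exact this
  choose d hd using hex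
  refine ⟨fun n => d n, fun c hc => ?_⟩
  have : J ⟨c, hc⟩ ∈ range e := by rw [← he]; exact ⟨_, rfl⟩
  obtain ⟨n, hn⟩ := this
  refine ⟨n, ?_⟩
  have hJ : J ⟨c, hc⟩ = J (d n) := by rw [hd n, hn]
  have hfib : ∀ θ : (Σ n, L.Relations n) → Bool,
      Nonempty ({i // ty i c = θ} ≃ {i // ty i (d n : Code L) = θ}) := by
    intro θ
    by_cases hθ : θ ∈ Θ
    · apply equiv_of_finsets (A := {i | ty i c = θ}) (B := {i | ty i (d n : Code L) = θ})
      intro m
      have := congrFun hJ (⟨θ, hθ⟩, m)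
      simp only [J] at this
      exact decide_eq_decide.1 this
    · have e1 : IsEmpty {i // ty i c = θ} := ⟨fun ⟨i, hi⟩ => hθ (by
        rw [hΘ]; exact mem_iUnion.2 ⟨i, ⟨c, hc⟩, hi⟩)⟩
      have e2 : IsEmpty {i // ty i (d n : Code L) = θ} := ⟨fun ⟨i, hi⟩ => hθ (by
        rw [hΘ]; exact mem_iUnion.2 ⟨i, d n, hi⟩)⟩
      exact ⟨Equiv.equivOfIsEmpty _ _⟩
  let E := fun θ => Classical.choice (hfib θ)
  refine iso_of_ty (hun c hc) (hun _ (d n).2) (Equiv.ofFiberEquiv E) (fun i => ?_)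
  exact (Equiv.ofFiberEquiv_map E i).symm

end Pool.Agent.H480R2.VC
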