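import Pool.Agent.H480R2.VC.Defs

set_option autoImplicit false

/-!
Blow-ups by twins, glued at one vertex: perfectly many covers of a structure which has two distinct
adjacent elements.
-/

namespace Pool.Agent.H480R2.VC

open Set

variable {L : FirstOrder.Language.{0, 0}} {M N : Type}

/-- Isomorphism of interpretations. -/
def IsoI (I : Interp L M) (J : Interp L N) : Prop :=
  ∃ g : M ≃ N, ∀ n (R : L.Relations n) (t : Fin n → M), I n R t ↔ J n R (g ∘ t)

theorem adj_iso {I : Interp L M} {J : Interp L N} (g : M ≃ N)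
    (hg : ∀ n (R : L.Relations n) (t : Fin n → M), I n R t ↔ J n R (g ∘ t)) (x y : M) :
    Adj I x y ↔ Adj J (g x) (g y) := by
  constructor
  · rintro ⟨n, R, t, ht, ⟨p, hp⟩, ⟨q, hq⟩⟩
    exact ⟨n, R, g ∘ t, (hg n R t).1 ht, ⟨p, congrArg g hp⟩, ⟨q, congrArg g hq⟩⟩
  · rintro ⟨n, R, t, ht, ⟨p, hp⟩, ⟨q, hq⟩⟩
    refine ⟨n, R, g.symm ∘ t, (hg n R _).2 ?_, ⟨p, ?_⟩, ⟨q, ?_⟩⟩
    · rw [← Function.comp_assoc]; simpa using ht
    · simp [hp]
    · simp [hq]

/-- Connection by paths avoiding `x`. -/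
def Cn (I : Interp L M) (x : M) : M → M → Prop :=
  Relation.ReflTransGen (fun u v => Adj I u v ∧ v ≠ x)

/-- `x` has `n` neighbours which are pairwise not connected by paths avoiding `x`. -/
def Sep (I : Interp L M) (x : M) (n : ℕ) : Prop :=
  ∃ p : Fin n → M, (∀ i, Adj I x (p i) ∧ p i ≠ x) ∧ ∀ i j, i ≠ j → ¬ Cn I x (p i) (p j)

theorem sep_mono {I : Interp L M} {x : M} {n m : ℕ} (h : Sep I x n) (hm : m ≤ n) : Sep I x m := by
  obtain ⟨p, h1, h2⟩ := h
  refine ⟨fun i => p (Fin.castLE hm i), fun i => h1 _, fun i j hij => h2 _ _ (fun he => hij ?_)⟩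
  exact Fin.castLE_injective hm he

theorem sep_iso {I : Interp L M} {J : Interp L N} (g : M ≃ N)
    (hg : ∀ n (R : L.Relations n) (t : Fin n → M), I n R t ↔ J n R (g ∘ t)) (x : M) (n : ℕ)
    (h : Sep I x n) : Sep J (g x) n := by
  obtain ⟨p, h1, h2⟩ := h
  refine ⟨fun i => g (p i), fun i => ⟨(adj_iso g hg _ _).1 (h1 i).1, fun he => (h1 i).2
    (g.injective he)⟩, fun i j hij hc => h2 i j hij ?_⟩
  have key : ∀ u v, Cn J (g x) u v → Cn I x (g.symm u) (g.symm v) := by
    intro u v huv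
    induction huv with
    | refl => exact Relation.ReflTransGen.refl
    | tail _ hb ih =>
      refine ih.tail ⟨?_, ?_⟩
      · rw [adj_iso g hg]; simpa using hb.1
      · intro he
        apply hb.2
        rw [← he]; simp
  simpa using key _ _ hc

theorem iso_symm {I : Interp L M} {J : Interp L N} (g : M ≃ N)
    (hg : ∀ n (R : L.Relations n) (t : Fin n → M), I n R t ↔ J n R (g ∘ t)) :
    ∀ n (R : L.Relations n) (t : Fin n → N), J n R t ↔ I n R (g.symm ∘ t) := by
  intro n R t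
  rw [hg n R (g.symm ∘ t), ← Function.comp_assoc]
  simp

/-- The invariant: some element has exactly `n` branches. -/
def Br (I : Interp L M) (n : ℕ) : Prop := ∃ x, Sep I x n ∧ ¬ Sep I x (n + 1)

theorem br_iso {I : Interp L M} {J : Interp L N} (h : IsoI I J) (n : ℕ) (hb : Br I n) :
    Br J n := by
  obtain ⟨g, hg⟩ := h
  obtain ⟨x, h1, h2⟩ := hb
  refine ⟨g x, sep_iso g hg x n h1, fun h3 => h2 ?_⟩
  have := sep_iso g.symm (iso_symm g hg) _ _ h3
  simpa using this

/-! ### The construction -/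

/-- The universe of the covers. -/
abbrev U : Type := ℕ × ℕ × (ℕ × Bool)

/-- The number of copies glued together in the component number `k`. -/
def cc (y : ℕ → Bool) (k : ℕ) : ℕ := 2 * k + 2 + (if y k = true then 1 else 0)

/-- The copy number `(k, i)` with twins chosen by `f`. -/
def sg (a : ℕ) (y : ℕ → Bool) (k i : ℕ) (f : ℕ → Bool) (m : ℕ) : U :=
  (k, if m = a ∧ f m = false then i + 1 - cc y k else i, (m, f m))

/-- The covering structure. -/
def WI (I : Interp L ℕ) (a : ℕ) (y : ℕ → Bool) : Interp L U := fun n R t =>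
  ∃ k i f, ∃ t0 : Fin n → ℕ, I n R t0 ∧ t = sg a y k i f ∘ t0

def pr (u : U) : ℕ := u.2.2.1

@[simp] theorem pr_sg (a : ℕ) (y : ℕ → Bool) (k i : ℕ) (f : ℕ → Bool) (m : ℕ) :
    pr (sg a y k i f m) = m := rfl

theorem adj_WI {I : Interp L ℕ} {a : ℕ} {y : ℕ → Bool} {x z : U} :
    Adj (WI I a y) x z ↔ ∃ k i f m m', Adj I m m' ∧ x = sg a y k i f m ∧ z = sg a y k i f m' := by
  constructor
  · rintro ⟨n, R, t, ⟨k, i, f, t0, h0, rfl⟩, ⟨p, hp⟩, ⟨q, hq⟩⟩
    exact ⟨k, i, f, t0 p, t0 q, ⟨n, R, t0, h0, ⟨p, rfl⟩, ⟨q, rfl⟩⟩, hp.symm, hq.symm⟩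
  · rintro ⟨k, i, f, m, m', ⟨n, R, t0, h0, ⟨p, hp⟩, ⟨q, hq⟩⟩, rfl, rfl⟩
    exact ⟨n, R, _, ⟨k, i, f, t0, h0, rfl⟩, ⟨p, by simp [hp]⟩, ⟨q, by simp [hq]⟩⟩

theorem cover_WI (I : Interp L ℕ) (a : ℕ) (y : ℕ → Bool) : Cover (WI I a y) I pr := by
  constructor
  · rintro n R t ⟨k, i, f, t0, h0, rfl⟩
    exact h0
  · intro s hs
    have hσ : ∀ k i f, (∀ m, pr (sg a y k i f m) = m) ∧
        (∀ n (R : L.Relations n) (t : Fin n → ℕ), I n R t → WI I a y n R (sg a y k i f ∘ t)) :=
      fun k i f => ⟨fun m => rfl, fun n R t h => ⟨k, i, f, t, h, rfl⟩⟩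
    by_cases h1 : ∃ x ∈ s, x.2.2 ≠ (a, false)
    · obtain ⟨x, hx, hxa⟩ := h1
      -- every element of `s` lies in the copy of `x`
      have key : ∀ z ∈ s, ∀ b : ℕ → Bool, b z.2.2.1 = z.2.2.2 → sg a y x.1 x.2.1 b (pr z) = z := by
        intro z hz b hb
        by_cases hxz : x = z
        · subst hxz
          obtain ⟨k, i, m, c⟩ := x
          simp only [ne_eq, Prod.mk.injEq] at hxa hb
          simp only [sg, pr, Prod.mk.injEq, hb, and_true, true_and]
          rw [if_neg hxa]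
        · obtain ⟨k, i, f, m, m', _, h2, h3⟩ := adj_WI.1 (hs x hx z hz hxz)
          subst h2 h3
          simp only [sg, ne_eq, Prod.mk.injEq] at hxa hb ⊢
          rw [if_neg hxa]
          have hb' : b m' = f m' := hb
          simp [pr, hb']
      have huniq : ∀ z ∈ s, ∀ z' ∈ s, pr z = pr z' → z.2.2.2 = z'.2.2.2 := by
        intro z hz z' hz' hp
        by_cases hzz : z = z'
        · rw [hzz]
        · obtain ⟨k, i, f, m, m', _, h2, h3⟩ := adj_WI.1 (hs z hz z' hz' hzz)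
          subst h2 h3
          simp only [pr_sg] at hp
          subst hp
          rfl
      classical
      let f : ℕ → Bool := fun m => if h : ∃ z ∈ s, pr z = m then (h.choose).2.2.2 else false
      have hf : ∀ z ∈ s, f (z.2.2.1) = z.2.2.2 := by
        intro z hz
        have hex : ∃ z' ∈ s, pr z' = z.2.2.1 := ⟨z, hz, rfl⟩
        simp only [f]
        rw [dif_pos hex]
        exact huniq _ hex.choose_spec.1 _ hz hex.choose_spec.2
      exact ⟨sg a y x.1 x.2.1 f, (hσ _ _ _).1, (hσ _ _ _).2, fun z hz => key z hz f (hf z hz)⟩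
    · push Not at h1
      have hsub : ∀ x ∈ s, ∀ z ∈ s, x = z := by
        intro x hx z hz
        by_contra hne
        obtain ⟨k, i, f, m, m', _, h2, h3⟩ := adj_WI.1 (hs x hx z hz hne)
        have hx' := h1 x hx
        have hz' := h1 z hz
        subst h2 h3
        simp only [sg, Prod.mk.injEq] at hx' hz'
        apply hne
        rw [hx'.1, hz'.1]
      by_cases hne : s.Nonempty
      · obtain ⟨x, hx⟩ := hne
        obtain ⟨k, j, m, b⟩ := x
        have hm := h1 _ hx
        simp only [Prod.mk.injEq] at hm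
        obtain ⟨rfl, rfl⟩ := hm
        refine ⟨sg m y k (if j = 0 then 0 else cc y k + j - 1) (fun _ => false), (hσ _ _ _).1,
          (hσ _ _ _).2, fun z hz => ?_⟩
        rw [← hsub _ hx z hz]
        simp only [pr, sg, and_self, if_true, Prod.mk.injEq, and_true, true_and]
        have hc : 2 ≤ cc y k := by unfold cc; omega
        by_cases hj : j = 0
        · rw [if_pos hj]; omega
        · rw [if_neg hj]; omega
      · rw [not_nonempty_iff_eq_empty] at hne
        subst hne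
        exact ⟨sg a y 0 0 (fun _ => false), (hσ _ _ _).1, (hσ _ _ _).2, fun z hz => hz.elim⟩

/-! ### Branches -/

theorem sg_twin (a : ℕ) (y : ℕ → Bool) (k i : ℕ) (f : ℕ → Bool) (m : ℕ) :
    sg a y k i (Function.update f m (!f m)) m ≠ sg a y k i f m := by
  simp only [sg, ne_eq, Prod.mk.injEq, Function.update_self, true_and, not_and]
  intro _
  cases f m <;> simp

/-- Neighbours of `x` in the same copy are connected by a path avoiding `x`. -/
theorem cn_same {I : Interp L ℕ} {a : ℕ} {y : ℕ → Bool} {k i : ℕ} {f f' : ℕ → Bool} {m p q : ℕ}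
    (hp : Adj I m p) (hq : Adj I m q) (hpm : p ≠ m) (hqm : q ≠ m) (_hf : f m = f' m) :
    Cn (WI I a y) (sg a y k i f m) (sg a y k i f p) (sg a y k i f' q) := by
  have hsymm : Adj I p m := by
    obtain ⟨n, R, t, h1, h2, h3⟩ := hp
    exact ⟨n, R, t, h1, h3, h2⟩
  let f1 : ℕ → Bool := Function.update f m (!f m)
  let f2 : ℕ → Bool := Function.update f' m (!f m)
  have e1 : sg a y k i f p = sg a y k i f1 p := by
    simp only [sg, f1, Function.update_of_ne hpm]
  have e2 : sg a y k i f' q = sg a y k i f2 q := by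
    simp only [sg, f2, Function.update_of_ne hqm]
  have e3 : sg a y k i f1 m = sg a y k i f2 m := by
    simp only [sg, f1, f2, Function.update_self]
  have n1 : sg a y k i f1 m ≠ sg a y k i f m := sg_twin a y k i f m
  have n2 : sg a y k i f' q ≠ sg a y k i f m := by
    intro h
    have := congrArg pr h
    exact hqm this
  refine Relation.ReflTransGen.tail (Relation.ReflTransGen.single ⟨?_, n1⟩) ⟨?_, n2⟩
  · rw [e1]
    exact adj_WI.2 ⟨k, i, f1, p, m, hsymm, rfl, rfl⟩
  · rw [e3, e2]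
    exact adj_WI.2 ⟨k, i, f2, m, q, hq, rfl, rfl⟩

theorem nb {I : Interp L ℕ} {a : ℕ} {y : ℕ → Bool} {x z : U} (h : Adj (WI I a y) x z)
    (hne : z ≠ x) : ∃ k i f m m', Adj I m m' ∧ m' ≠ m ∧ x = sg a y k i f m ∧
      z = sg a y k i f m' := by
  obtain ⟨k, i, f, m, m', h1, rfl, rfl⟩ := adj_WI.1 h
  refine ⟨k, i, f, m, m', h1, fun he => hne ?_, rfl, rfl⟩
  rw [he]

theorem sep_other {I : Interp L ℕ} {a : ℕ} {y : ℕ → Bool} {x : U}
    (hx : ¬ (x.2.2 = (a, false) ∧ x.2.1 = 0)) : ¬ Sep (WI I a y) x 2 := by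
  rintro ⟨p, h1, h2⟩
  obtain ⟨k, i, f, m, q, hq, hqm, hx0, hp0⟩ := nb (h1 0).1 (h1 0).2
  obtain ⟨k', i', f', m', q', hq', hqm', hx1, hp1⟩ := nb (h1 1).1 (h1 1).2
  have hxx := hx0.symm.trans hx1
  simp only [sg, Prod.mk.injEq] at hxx
  obtain ⟨rfl, hi, rfl, hf⟩ := hxx
  have hii : i = i' := by
    by_cases ha : m = a ∧ f m = false
    · have ha' : m = a ∧ f' m = false := by rw [← hf]; exact ha
      rw [if_pos ha, if_pos ha'] at hi
      have hne : i + 1 - cc y k ≠ 0 := by
        intro h0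
        apply hx
        rw [hx0]
        simp only [sg, Prod.mk.injEq]
        rw [if_pos ha]
        exact ⟨ha, h0⟩
      omega
    · have ha' : ¬ (m = a ∧ f' m = false) := by rw [← hf]; exact ha
      rwa [if_neg ha, if_neg ha'] at hi
  subst hii
  apply h2 0 1 (by decide)
  rw [hp0, hp1, hx0]
  exact cn_same hq hq' hqm hqm' hf

theorem sep_apex_lower {I : Interp L ℕ} {a b : ℕ} {y : ℕ → Bool} (hab : Adj I a b) (hne : b ≠ a)
    (k : ℕ) : Sep (WI I a y) (k, 0, (a, false)) (cc y k) := by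
  have hxe : ∀ i : Fin (cc y k), ((k, 0, (a, false)) : U) = sg a y k i (fun _ => false) a := by
    intro i
    have := i.2
    simp only [sg, and_self, if_true, Prod.mk.injEq, and_true, true_and]
    omega
  have hp : ∀ i : ℕ, sg a y k i (fun _ => false) b = (k, i, (b, false)) := by
    intro i
    simp only [sg, Prod.mk.injEq, and_true, true_and]
    rw [if_neg hne]
  refine ⟨fun i => (k, (i : ℕ), (b, false)), fun i => ⟨?_, ?_⟩, ?_⟩
  · rw [hxe i]
    exact adj_WI.2 ⟨k, i, _, a, b, hab, rfl, (hp i).symm⟩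
  · simp only [ne_eq, Prod.mk.injEq, true_and, not_and]
    intro _ h; exact absurd h hne
  · intro i j hij hc
    have key : ∀ u v : U, Cn (WI I a y) (k, 0, (a, false)) u v →
        (u.1 = k ∧ u.2.1 = (i : ℕ) ∧ u.2.2 ≠ (a, false)) →
        (v.1 = k ∧ v.2.1 = (i : ℕ) ∧ v.2.2 ≠ (a, false)) := by
      intro u v huv hu
      induction huv with
      | refl => exact hu
      | tail _ hb ih =>
        obtain ⟨k1, i1, f1, m1, m2, _, h3, h4⟩ := adj_WI.1 hb.1
        rw [h3] at ih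
        simp only [sg, ne_eq, Prod.mk.injEq] at ih
        obtain ⟨rfl, ih1, ih2⟩ := ih
        rw [if_neg ih2] at ih1
        subst ih1
        have hnot : ¬ (m2 = a ∧ f1 m2 = false) := by
          intro hm
          apply hb.2
          rw [h4]
          have := i.2
          simp only [sg, Prod.mk.injEq, true_and]
          rw [if_pos hm]
          exact ⟨by omega, hm⟩
        rw [h4]
        simp only [sg, ne_eq, Prod.mk.injEq, true_and]
        rw [if_neg hnot]
        exact ⟨rfl, hnot⟩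
    have := (key _ _ hc ⟨rfl, rfl, by simp [hne]⟩).2.1
    exact hij (Fin.ext this.symm)

theorem sep_apex_upper {I : Interp L ℕ} {a : ℕ} {y : ℕ → Bool} (k : ℕ) :
    ¬ Sep (WI I a y) (k, 0, (a, false)) (cc y k + 1) := by
  rintro ⟨p, h1, h2⟩
  have key : ∀ j, ∃ i : Fin (cc y k), ∃ f m', Adj I a m' ∧ m' ≠ a ∧ f a = false ∧
      ((k, 0, (a, false)) : U) = sg a y k i f a ∧ p j = sg a y k i f m' := by
    intro j
    obtain ⟨k1, i, f, m, m', h3, h4, h5, h6⟩ := nb (h1 j).1 (h1 j).2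
    have h5' := h5
    simp only [sg, Prod.mk.injEq] at h5
    obtain ⟨rfl, h7, rfl, h8⟩ := h5
    rw [if_pos ⟨rfl, h8.symm⟩] at h7
    exact ⟨⟨i, by omega⟩, f, m', h3, h4, h8.symm, h5', h6⟩
  choose i f m' h3 h4 h5 h6 h7 using key
  obtain ⟨j, j', hjj, hi⟩ := Fintype.exists_ne_map_eq_of_card_lt i (by simp)
  apply h2 j j' hjj
  rw [h7 j, h7 j', h6 j, hi]
  exact cn_same (h3 j) (h3 j') (h4 j) (h4 j') ((h5 j).trans (h5 j').symm)

theorem br_WI {I : Interp L ℕ} {a b : ℕ} {y : ℕ → Bool} (hab : Adj I a b) (hne : b ≠ a) (k : ℕ) :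
    Br (WI I a y) (2 * k + 3) ↔ y k = true := by
  constructor
  · rintro ⟨x, h1, h2⟩
    have hx : x.2.2 = (a, false) ∧ x.2.1 = 0 := by
      by_contra hx
      exact sep_other hx (sep_mono h1 (by omega))
    obtain ⟨k', j, m, c⟩ := x
    simp only [Prod.mk.injEq] at hx
    obtain ⟨⟨rfl, rfl⟩, rfl⟩ := hx
    have h3 : ¬ (cc y k' + 1 ≤ 2 * k + 3) := fun h => sep_apex_upper k' (sep_mono h1 h)
    have h4 : ¬ (2 * k + 3 + 1 ≤ cc y k') := fun h => h2 (sep_mono (sep_apex_lower hab hne k') h)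
    unfold cc at h3 h4
    split_ifs at h3 h4 with hy
    · have : k' = k := by omega
      rw [← this]; exact hy
    · omega
  · intro hy
    have hc : cc y k = 2 * k + 3 := by
      unfold cc; rw [if_pos hy]
    refine ⟨(k, 0, (a, false)), ?_, ?_⟩
    · rw [← hc]; exact sep_apex_lower hab hne k
    · rw [← hc]; exact sep_apex_upper k

theorem WI_inj {I : Interp L ℕ} {a b : ℕ} {y y' : ℕ → Bool} (hab : Adj I a b) (hne : b ≠ a)
    (h : IsoI (WI I a y) (WI I a y')) : y = y' := by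
  have h' : IsoI (WI I a y') (WI I a y) := by
    obtain ⟨g, hg⟩ := h
    exact ⟨g.symm, iso_symm g hg⟩
  funext k
  rw [Bool.eq_iff_iff, ← br_WI hab hne k, ← br_WI hab hne k]
  exact ⟨br_iso h _, br_iso h' _⟩

/-- The truth of an atomic statement depends on one coordinate of `y` only. -/
theorem WI_dep (I : Interp L ℕ) (a : ℕ) {n : ℕ} (R : L.Relations n) (t : Fin n → U) :
    ∃ k0, ∀ y y' : ℕ → Bool, y k0 = y' k0 → WI I a y n R t → WI I a y' n R t := by
  rcases Nat.eq_zero_or_pos n with h0 | h0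
  · subst h0
    refine ⟨0, ?_⟩
    rintro y y' _ ⟨k, i, f, t0, h1, _⟩
    exact ⟨k, i, f, t0, h1, funext fun i => i.elim0⟩
  · refine ⟨(t ⟨0, h0⟩).1, ?_⟩
    rintro y y' hy ⟨k, i, f, t0, h1, rfl⟩
    have hk : y k = y' k := hy
    refine ⟨k, i, f, t0, h1, funext fun j => ?_⟩
    simp only [Function.comp, sg, cc, hk]

end Pool.Agent.H480R2.VC
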